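import Pool.Agent.H82.BGK.Core

/-!
# Short sums over consecutive powers modulo a prime

The theorem of Bourgain, Glibichuk and Konyagin, for `N ≥ p ^ ε` consecutive powers of an element
of order at least `N`, with a power saving.
-/

set_option autoImplicit false

namespace Pool.Agent.H82.BGK

open Finset Filter Topology

theorem ev_pow {e : ℝ} (he : 0 < e) (C : ℝ) : ∃ p₀ : ℕ, ∀ p : ℕ, p₀ ≤ p → C ≤ (p : ℝ) ^ e := by
  have h1 : Tendsto (fun p : ℕ => (p : ℝ) ^ e) atTop atTop :=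
    (tendsto_rpow_atTop he).comp tendsto_natCast_atTop_atTop
  exact eventually_atTop.1 (h1.eventually_ge_atTop C)

/-- the levels -/
noncomputable def lv (η : ℝ) (k : ℕ) : ℝ := 2 * (η / 4) ^ 2 ^ k

theorem lv_succ (η : ℝ) (k : ℕ) : lv η (k + 1) = lv η k ^ 2 / 2 := by
  unfold lv
  rw [pow_succ 2 k, pow_mul]
  ring

theorem lv_pos {η : ℝ} (hη : 0 < η) (k : ℕ) : 0 < lv η k := by
  unfold lv
  positivity

theorem lv_anti {η : ℝ} (hη : 0 < η) (hη1 : η ≤ 1) : Antitone (lv η) := by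
  intro k l h
  unfold lv
  have : (η / 4) ^ 2 ^ l ≤ (η / 4) ^ 2 ^ k :=
    pow_le_pow_of_le_one (by positivity) (by linarith) (Nat.pow_le_pow_right (by norm_num) h)
  linarith

theorem lv_zero (η : ℝ) : lv η 0 = η / 2 := by
  unfold lv
  rw [pow_zero, pow_one]
  ring

variable {p : ℕ} [Fact p.Prime]

theorem card_Sp_ge {g a : ZMod p} (ha : a ≠ 0) {N : ℕ} (hN : N ≤ orderOf g)
    (hN2 : 2 ≤ N) {η : ℝ} (hη : 0 < η) (hη1 : η ≤ 1) (haS : a ∈ Sp g N η) :
    η * N / 4 ≤ (Sp g N (η / 2)).card := by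
  classical
  have hN' : (2 : ℝ) ≤ N := by exact_mod_cast hN2
  set n : ℕ := ⌊η * N / 4⌋₊ + 1 with hn
  have hn1 : η * N / 4 ≤ n := by
    rw [hn]
    push_cast
    exact (Nat.lt_floor_add_one _).le
  have hnN : n ≤ N := by
    have h1 : ((⌊η * N / 4⌋₊ : ℕ) : ℝ) ≤ η * N / 4 := Nat.floor_le (by positivity)
    have h2 : η * N ≤ 1 * N := by gcongr
    have h3 : (n : ℝ) ≤ N := by
      rw [hn]
      push_cast
      linarith
    exact_mod_cast h3
  refine hn1.trans ?_
  have h1 : ((range n).image fun j => g ^ j * a).card = n := by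
    rw [card_image_of_injOn, card_range]
    intro i hi j hj h
    rw [coe_range, Set.mem_Iio] at hi hj
    refine Pool.Agent.Y943.Fu.inj_pow g ?_ ?_ (mul_right_cancel₀ ha h)
    · rw [coe_range, Set.mem_Iio]; omega
    · rw [coe_range, Set.mem_Iio]; omega
  rw [← h1]
  have h2 : ((range n).image fun j => g ^ j * a) ⊆ Sp g N (η / 2) := by
    intro x hx
    obtain ⟨j, hj, rfl⟩ := mem_image.1 hx
    rw [mem_range] at hj
    exact mul_pow_mem haS ((Nat.le_floor_iff (by positivity)).1 (by omega))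
  exact_mod_cast card_le_card h2

/-- a level with slow growth -/
theorem exists_level {g : ZMod p} {N : ℕ} {η M : ℝ} (hM : 0 ≤ M) {J : ℕ}
    (hMJ : (p : ℝ) ≤ M ^ J) (h1 : 1 ≤ (Sp g N (lv η 0)).card) :
    ∃ k < J, ((Sp g N (lv η (k + 1))).card : ℝ) ≤ M * (Sp g N (lv η k)).card := by
  by_contra hcon
  push Not at hcon
  have hp0 : (0 : ℝ) < p := by exact_mod_cast (Fact.out : p.Prime).pos
  have hJ : J ≠ 0 := by
    rintro rfl
    have h2 := (Fact.out : p.Prime).one_lt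
    have : (1 : ℝ) < p := by exact_mod_cast h2
    rw [pow_zero] at hMJ
    linarith
  have h2 : ∀ k ≤ J, M ^ k ≤ (Sp g N (lv η k)).card := by
    intro k
    induction k with
    | zero =>
      intro _
      rw [pow_zero]
      exact_mod_cast h1
    | succ k ih =>
      intro hk
      refine le_trans ?_ (hcon k (by omega)).le
      rw [pow_succ, mul_comm]
      have := ih (by omega)
      gcongr
  obtain ⟨k, rfl⟩ := Nat.exists_eq_succ_of_ne_zero hJ
  have h3 := hcon k (by omega)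
  have h4 : ((Sp g N (lv η (k + 1))).card : ℝ) ≤ p := by
    have : (Sp g N (lv η (k + 1))).card ≤ p := by
      calc _ ≤ (univ : Finset (ZMod p)).card := card_le_card (subset_univ _)
        _ = p := by rw [card_univ, ZMod.card]
    exact_mod_cast this
  have h5 : M ^ (k + 1) ≤ M * (Sp g N (lv η k)).card := by
    rw [pow_succ, mul_comm]
    have := h2 k (by omega)
    gcongr
  exact absurd (le_trans hMJ h5) (not_le.2 (h3.trans_le h4))

end Pool.Agent.H82.BGK

namespace Pool.Agent.H82.BGK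

open Finset Filter Topology

/-- **the theorem of Bourgain, Glibichuk and Konyagin**: sums over `N ≥ p ^ ε` consecutive powers
of an element of order at least `N` are at most `N p ^ (-δ)` -/
theorem bgk {ε : ℝ} (hε : 0 < ε) : ∃ δ : ℝ, 0 < δ ∧ ∃ p₀ : ℕ, ∀ (p : ℕ) [Fact p.Prime], p₀ ≤ p →
    ∀ g : ZMod p, g ≠ 0 → ∀ N : ℕ, N ≤ orderOf g → (p : ℝ) ^ ε ≤ N → ∀ a : ZMod p, a ≠ 0 →
    ‖∑ i ∈ range N, ZMod.stdAddChar (N := p) (a * g ^ i)‖ ≤ N * (p : ℝ) ^ (-δ) := by
  -- the number of steps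
  obtain ⟨i, hi⟩ := pow_unbounded_of_one_lt (4 / ε) (by norm_num : (1 : ℝ) < 2)
  have hi' : 1 ≤ ε / 4 * 2 ^ i := by
    rw [div_lt_iff₀ hε] at hi
    linarith
  set E : ℕ := 50 * (28 ^ i + 3) + 1 with hE
  have hE201 : (201 : ℝ) ≤ E := by
    have : 201 ≤ E := by
      have : 1 ≤ 28 ^ i := Nat.one_le_pow _ _ (by norm_num)
      omega
    exact_mod_cast this
  obtain ⟨J, hJ⟩ := exists_nat_gt (8 * E / ε)
  have hJ0 : (0 : ℝ) < J := lt_of_le_of_lt (by positivity) hJ
  have hJε : 8 * E ≤ ε * J := by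
    rw [div_lt_iff₀ hε] at hJ
    linarith
  set c : ℝ := 2 * (1 / 4) ^ 2 ^ J with hc
  have hc0 : 0 < c := by positivity
  set C : ℝ := 2 ^ 24 / c ^ 4 with hC
  have hC0 : 0 < C := by positivity
  set δ : ℝ := 1 / (4 * J * 2 ^ J) with hδ
  have hδ0 : 0 < δ := by positivity
  obtain ⟨p₁, hp₁⟩ := ev_pow (by positivity : 0 < ε / 4) (64 * C ^ E / c ^ 2 + 1)
  obtain ⟨p₂, hp₂⟩ := ev_pow (by positivity : 0 < ε / 4) (8 * C ^ 2 / c)
  refine ⟨δ, hδ0, max (max p₁ p₂) 4, fun p hpF hp g hg N hN hNε a ha => ?_⟩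
  have g1 : p₁ ≤ p := ((le_max_left _ _).trans (le_max_left _ _)).trans hp
  have g2 : p₂ ≤ p := ((le_max_right _ _).trans (le_max_left _ _)).trans hp
  have g3 : 4 ≤ p := (le_max_right _ _).trans hp
  have hx4 : (4 : ℝ) ≤ p := by exact_mod_cast g3
  set x : ℝ := (p : ℝ) with hx
  have hx0 : 0 < x := by linarith
  have hx1 : 1 ≤ x := by linarith
  set η : ℝ := x ^ (-δ) with hη
  have hη0 : 0 < η := Real.rpow_pos_of_pos hx0 _
  have hη1 : η ≤ 1 := Real.rpow_le_one_of_one_le_of_nonpos hx1 (by linarith)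
  by_contra hcon
  rw [not_le] at hcon
  have haS : a ∈ Sp g N η := by
    rw [mem_Sp]
    unfold Fs
    rw [mul_comm]
    exact hcon.le
  have hN2 : 2 ≤ N := by
    have h1 : (1 : ℝ) < N := by
      refine lt_of_lt_of_le ?_ hNε
      exact Real.one_lt_rpow (by linarith) hε
    have : 1 < N := by exact_mod_cast h1
    omega
  have hN' : (2 : ℝ) ≤ N := by exact_mod_cast hN2
  have h0 := card_Sp_ge ha hN hN2 hη0 hη1 haS
  rw [← lv_zero] at h0
  -- the level
  set M : ℝ := x ^ ((J : ℝ)⁻¹) with hM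
  have hM1 : 1 ≤ M := Real.one_le_rpow hx1 (by positivity)
  have hMJ : M ^ J = x := Real.rpow_inv_natCast_pow hx0.le (by
    rintro rfl
    norm_num at hJ0)
  have h1 : 1 ≤ (Sp g N (lv η 0)).card := by
    rw [Nat.one_le_iff_ne_zero, ← Nat.pos_iff_ne_zero]
    have : (0 : ℝ) < (Sp g N (lv η 0)).card := lt_of_lt_of_le (by positivity) h0
    exact_mod_cast this
  obtain ⟨k, hk, hkM⟩ := exists_level (by linarith : 0 ≤ M) hMJ.ge h1
  set t := lv η k with ht
  have ht0 : 0 < t := lv_pos hη0 k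
  have htη : t ≤ η / 2 := by
    rw [← lv_zero]
    exact lv_anti hη0 hη1 (Nat.zero_le k)
  have ht1 : t ≤ 1 := by linarith
  have htJ : c * x ^ (-(1 / (4 * J)) : ℝ) ≤ t := by
    refine le_trans (le_of_eq ?_) (lv_anti hη0 hη1 hk.le)
    unfold lv
    have e1 : η / 4 = 1 / 4 * η := by ring
    rw [e1, mul_pow, hc, hη, ← Real.rpow_natCast (x ^ (-δ)), ← Real.rpow_mul hx0.le]
    have e2 : -δ * ((2 ^ J : ℕ) : ℝ) = -(1 / (4 * J)) := by
      rw [hδ]
      push_cast
      field_simp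
    rw [e2]
    ring
  set y : ℝ := x ^ (-(1 / (4 * J)) : ℝ) with hy
  have hy0 : 0 < y := Real.rpow_pos_of_pos hx0 _
  have hy4 : y ^ 4 * M = 1 := by
    rw [hy, hM, ← Real.rpow_natCast, ← Real.rpow_mul hx0.le, ← Real.rpow_add hx0]
    have : -(1 / (4 * (J : ℝ))) * ((4 : ℕ) : ℝ) + (J : ℝ)⁻¹ = 0 := by
      push_cast
      field_simp
      ring
    rw [this, Real.rpow_zero]
  -- the constant
  set V : ℝ := C * M ^ 2 with hV
  have hV' : 2 ^ 24 * M / t ^ 4 ≤ V := by
    have e1 : (c * y) ^ 4 ≤ t ^ 4 := by gcongr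
    calc 2 ^ 24 * M / t ^ 4 ≤ 2 ^ 24 * M / (c * y) ^ 4 := by gcongr
      _ = 2 ^ 24 * M * (y ^ 4 * M) / (c * y) ^ 4 := by rw [hy4, mul_one]
      _ = V := by
        rw [hV, hC]
        field_simp
  have hV0 : 0 < V := by positivity
  -- powers of `x`
  have hNx : x ^ ε ≤ N := hNε
  set z : ℝ := x ^ (ε / 4) with hz
  have hz0 : 0 < z := Real.rpow_pos_of_pos hx0 _
  have hz1 : 1 ≤ z := Real.one_le_rpow hx1 (by positivity)
  have hz4 : x ^ ε = z ^ 4 := by
    rw [hz, ← Real.rpow_natCast, ← Real.rpow_mul hx0.le]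
    congr 1
    push_cast
    ring
  have hMz : M ^ (2 * E) ≤ z := by
    rw [hM, hz, ← Real.rpow_natCast, ← Real.rpow_mul hx0.le]
    apply Real.rpow_le_rpow_of_exponent_le hx1
    push_cast
    rw [inv_mul_le_iff₀ hJ0]
    linarith
  have hMz4 : M ^ 5 ≤ z := by
    refine le_trans ?_ hMz
    apply pow_le_pow_right₀ hM1
    have : 201 ≤ E := by exact_mod_cast hE201
    omega
  have hyM : 1 ≤ y * M := by
    have e1 : y ≤ 1 := Real.rpow_le_one_of_one_le_of_nonpos hx1 (by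
      have : 0 < 1 / (4 * (J : ℝ)) := by positivity
      linarith)
    calc 1 = y ^ 4 * M := hy4.symm
      _ ≤ y * M := by
        have : y ^ 4 ≤ y := by
          calc y ^ 4 ≤ y ^ 1 := pow_le_pow_of_le_one hy0.le e1 (by norm_num)
            _ = y := pow_one y
        gcongr
  -- the parameter `s`
  have hfin := core hg hN hN2 g3 ht0 ht1 hM1 hV' (by
      rw [ht, ← lv_succ]
      exact hkM) (by
      refine le_trans ?_ (h0.trans ?_)
      · have : t ≤ η := by linarith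
        gcongr
      · exact_mod_cast card_le_card (Sp_anti (lv_anti hη0 hη1 (Nat.zero_le k)))) (s := z) hz1 (by
      rw [le_div_iff₀ (by positivity)]
      have e1 := hp₂ p g2
      rw [div_le_iff₀ hc0] at e1
      calc z * (8 * V ^ 2) = z * (8 * C ^ 2) * M ^ 4 := by rw [hV]; ring
        _ ≤ z * (z * c) * M ^ 4 := by gcongr
        _ = z * z * c * M ^ 4 * 1 := by ring
        _ ≤ z * z * c * M ^ 4 * (y * M) := by gcongr
        _ = (c * y) * (z * z * M ^ 5) := by ring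
        _ ≤ t * (z * z * z) := by gcongr
        _ ≤ t * (z * z * z * z) :=
          mul_le_mul_of_nonneg_left (le_mul_of_one_le_right (by positivity) hz1) ht0.le
        _ = t * x ^ ε := by rw [hz4]; ring
        _ ≤ t * N := by gcongr) i (by
      rw [hz, ← Real.rpow_natCast, ← Real.rpow_mul hx0.le]
      calc x = x ^ (1 : ℝ) := (Real.rpow_one x).symm
        _ ≤ _ := Real.rpow_le_rpow_of_exponent_le hx1 (by push_cast; exact hi'))
  rw [← hE] at hfin
  -- the contradiction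
  have e1 := hp₁ p g1
  have e2 : 64 * V ^ E ≤ 64 * C ^ E * z := by
    rw [hV, mul_pow, ← pow_mul, mul_assoc]
    gcongr
  have e3 : z ^ 4 * (c * y) ^ 2 ≤ N * t ^ 2 := by
    rw [← hz4]
    gcongr
  have e4 : 64 * C ^ E < z * c ^ 2 := by
    have e5 : 64 * C ^ E / c ^ 2 < z := by linarith
    rwa [div_lt_iff₀ (by positivity)] at e5
  -- `z ^ 4 c ^ 2 y ^ 2 ≤ 64 C ^ E z < z ^ 2 c ^ 2`
  have e5 : z ^ 4 * (c * y) ^ 2 < z ^ 2 * c ^ 2 := by
    calc z ^ 4 * (c * y) ^ 2 ≤ 64 * C ^ E * z := e3.trans (hfin.trans e2)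
      _ < z * c ^ 2 * z := by gcongr
      _ = _ := by ring
  have e6 : (1 : ℝ) ≤ z ^ 2 * y ^ 2 := by
    have e7 : 1 ≤ z * y := by
      calc 1 ≤ y * M := hyM
        _ ≤ y * z := by
          have : M ≤ M ^ 5 := le_self_pow₀ hM1 (by norm_num)
          have := this.trans hMz4
          gcongr
        _ = z * y := by ring
    calc (1 : ℝ) ≤ (z * y) ^ 2 := one_le_pow₀ e7
      _ = _ := by ring
  have e7 : z ^ 4 * (c * y) ^ 2 = z ^ 2 * c ^ 2 * (z ^ 2 * y ^ 2) := by ring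
  have e8 : z ^ 2 * c ^ 2 * 1 ≤ z ^ 2 * c ^ 2 * (z ^ 2 * y ^ 2) := by gcongr
  linarith

end Pool.Agent.H82.BGK
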