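import Pool.Agent.H82.BGK.Spec
import Pool.Agent.H82.PD.Sum

/-!
# Many multipliers of a structured piece of the spectrum
-/

set_option autoImplicit false

namespace Pool.Agent.H82.BGK

open Finset
open scoped Pointwise

/-- many sets of the same size in a small set overlap -/
theorem overlap {α : Type*} [DecidableEq α] {n : ℕ} (hn : 0 < n) (T : ℕ → Finset α) (U : Finset α)
    {a R : ℝ} (ha : 0 < a) (hR : 0 < R) (hT : ∀ j ∈ range n, ((T j).card : ℝ) = a)
    (hTU : ∀ j ∈ range n, T j ⊆ U) (hU : (U.card : ℝ) ≤ R * a) :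
    ∃ j₀ ∈ range n, (n : ℝ) / (2 * R) ≤
      ((range n).filter fun j => a / (2 * R) ≤ ((T j ∩ T j₀).card : ℝ)).card := by
  classical
  have hn' : (0 : ℝ) < n := by exact_mod_cast hn
  -- double counting
  have h1 : ∑ j ∈ range n, ((T j).card : ℝ) =
      ∑ x ∈ U, (((range n).filter fun j => x ∈ T j).card : ℝ) := by
    have e1 : ∀ j ∈ range n, ((T j).card : ℝ) = ∑ x ∈ U, if x ∈ T j then (1 : ℝ) else 0 := by
      intro j hj
      rw [sum_ite_mem, inter_eq_right.2 (hTU j hj)]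
      simp
    rw [sum_congr rfl e1, sum_comm]
    refine sum_congr rfl fun x _ => ?_
    rw [← sum_filter, sum_const, nsmul_eq_mul, mul_one]
  have h2 : ∑ j ∈ range n, ∑ j' ∈ range n, ((T j ∩ T j').card : ℝ) =
      ∑ x ∈ U, (((range n).filter fun j => x ∈ T j).card : ℝ) ^ 2 := by
    have e1 : ∀ j ∈ range n, ∀ j' ∈ range n, ((T j ∩ T j').card : ℝ) =
        ∑ x ∈ U, (if x ∈ T j then (1 : ℝ) else 0) * (if x ∈ T j' then (1 : ℝ) else 0) := by
      intro j hj j' _
      have e2 : ∀ x ∈ U, (if x ∈ T j then (1 : ℝ) else 0) * (if x ∈ T j' then (1 : ℝ) else 0) =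
          if x ∈ T j ∩ T j' then (1 : ℝ) else 0 := by
        intro x _
        by_cases h1 : x ∈ T j <;> by_cases h2 : x ∈ T j' <;> simp [h1, h2]
      rw [sum_congr rfl e2, sum_ite_mem,
        inter_eq_right.2 (inter_subset_left.trans (hTU j hj))]
      simp
    rw [sum_congr rfl fun j hj => sum_congr rfl fun j' hj' => e1 j hj j' hj']
    have e3 : ∀ j ∈ range n, ∑ j' ∈ range n, ∑ x ∈ U,
        (if x ∈ T j then (1 : ℝ) else 0) * (if x ∈ T j' then (1 : ℝ) else 0) =
        ∑ x ∈ U, (if x ∈ T j then (1 : ℝ) else 0) *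
          (((range n).filter fun j => x ∈ T j).card : ℝ) := by
      intro j _
      rw [sum_comm]
      refine sum_congr rfl fun x _ => ?_
      rw [← mul_sum, ← sum_filter, sum_const, nsmul_eq_mul, mul_one]
    rw [sum_congr rfl e3, sum_comm]
    refine sum_congr rfl fun x _ => ?_
    rw [← sum_mul, ← sum_filter, sum_const, nsmul_eq_mul, mul_one, sq]
  have h3 : ((n : ℝ) * a) ^ 2 ≤ R * a * ∑ j ∈ range n, ∑ j' ∈ range n, ((T j ∩ T j').card : ℝ) := by
    have e1 : ∑ j ∈ range n, ((T j).card : ℝ) = n * a := by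
      rw [sum_congr rfl hT, sum_const, card_range, nsmul_eq_mul]
    rw [← e1, h1, h2]
    refine sq_sum_le_card_mul_sum_sq.trans ?_
    exact mul_le_mul_of_nonneg_right hU (sum_nonneg fun _ _ => by positivity)
  have h4 : ∑ j₀ ∈ range n, (n : ℝ) * a / R ≤
      ∑ j₀ ∈ range n, ∑ j ∈ range n, ((T j ∩ T j₀).card : ℝ) := by
    rw [sum_const, card_range, nsmul_eq_mul, sum_comm]
    have e1 : R * a * ((n : ℝ) * (n * a / R)) ≤
        R * a * ∑ j ∈ range n, ∑ j' ∈ range n, ((T j ∩ T j').card : ℝ) := by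
      refine le_trans (le_of_eq ?_) h3
      field_simp
    exact le_of_mul_le_mul_left e1 (by positivity)
  obtain ⟨j₀, hj₀, h5⟩ := exists_le_of_sum_le ⟨0, mem_range.2 hn⟩ h4
  refine ⟨j₀, hj₀, ?_⟩
  set Jg := (range n).filter fun j => a / (2 * R) ≤ ((T j ∩ T j₀).card : ℝ) with hJg
  have h6 : ∑ j ∈ range n, ((T j ∩ T j₀).card : ℝ) ≤ Jg.card * a + n * (a / (2 * R)) := by
    have e1 : ∀ j ∈ range n, ((T j ∩ T j₀).card : ℝ) ≤
        (if a / (2 * R) ≤ ((T j ∩ T j₀).card : ℝ) then a else 0) + a / (2 * R) := by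
      intro j hj
      split_ifs with h
      · have e2 : ((T j ∩ T j₀).card : ℝ) ≤ (T j).card := by
          exact_mod_cast card_le_card inter_subset_left
        rw [hT j hj] at e2
        have : 0 < a / (2 * R) := by positivity
        linarith
      · rw [not_le] at h
        linarith
    refine (sum_le_sum e1).trans ?_
    rw [sum_add_distrib, ← sum_filter, sum_const, sum_const, card_range, nsmul_eq_mul, nsmul_eq_mul]
  have h7 : (n : ℝ) / (2 * R) * a ≤ Jg.card * a := by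
    have e1 : (n : ℝ) * a / R = n / (2 * R) * a + n * (a / (2 * R)) := by
      field_simp
      ring
    linarith
  exact le_of_mul_le_mul_right h7 ha

variable {p : ℕ} [Fact p.Prime]

/-- **the multipliers** -/
theorem multipliers {g : ZMod p} (hg : g ≠ 0) {n : ℕ} (hn : 0 < n) (hno : n ≤ orderOf g)
    {A U : Finset (ZMod p)} (hA : A.Nonempty) {K R : ℝ} (hK : 0 ≤ K) (hR : 0 < R)
    (hAK : ((A - A).card : ℝ) ≤ K * A.card) (hAU : ∀ j < n, ∀ x ∈ A, g ^ j * x ∈ U)
    (hU : (U.card : ℝ) ≤ R * A.card) :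
    ∃ B : Finset (ZMod p), (n : ℝ) / (2 * R) ≤ B.card ∧ ∀ u ∈ B, Cv A (K ^ 2 * (2 * R)) u := by
  classical
  have hA0 : (0 : ℝ) < A.card := by exact_mod_cast hA.card_pos
  have hinj : ∀ u : ZMod p, u ≠ 0 → Function.Injective fun x => u * x :=
    fun u hu => mul_right_injective₀ hu
  obtain ⟨j₀, hj₀, h1⟩ := overlap hn (fun j => A.image fun x => g ^ j * x) U hA0 hR
    (fun j _ => by rw [card_image_of_injective _ (hinj _ (pow_ne_zero _ hg))])
    (fun j hj x hx => by
      obtain ⟨y, hy, rfl⟩ := mem_image.1 hx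
      exact hAU j (mem_range.1 hj) y hy) hU
  set Jg := (range n).filter fun j => (A.card : ℝ) / (2 * R) ≤
    (((A.image fun x => g ^ j * x) ∩ (A.image fun x => g ^ j₀ * x)).card : ℝ) with hJg
  have hg0 : g ^ j₀ ≠ 0 := pow_ne_zero _ hg
  refine ⟨Jg.image fun j => g ^ j * (g ^ j₀)⁻¹, ?_, ?_⟩
  · rw [card_image_of_injOn]
    · exact h1
    · intro i hi j hj h
      rw [mem_coe, hJg, mem_filter, mem_range] at hi hj
      have h2 : g ^ i = g ^ j := mul_right_cancel₀ (inv_ne_zero hg0) h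
      refine Pool.Agent.Y943.Fu.inj_pow g ?_ ?_ h2
      · rw [coe_range, Set.mem_Iio]; omega
      · rw [coe_range, Set.mem_Iio]; omega
  · intro u hu
    obtain ⟨j, hj, rfl⟩ := mem_image.1 hu
    rw [hJg, mem_filter] at hj
    set u := g ^ j * (g ^ j₀)⁻¹ with hu
    have hu0 : u ≠ 0 := mul_ne_zero (pow_ne_zero _ hg) (inv_ne_zero hg0)
    apply cv_of hA
    set D := (A.image fun x => u * x) ∩ A with hD
    have h2 : ((A.image fun x => g ^ j * x) ∩ (A.image fun x => g ^ j₀ * x)).card = D.card := by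
      have e1 : (A.image fun x => g ^ j * x) = (A.image fun x => u * x).image fun x => g ^ j₀ * x := by
        rw [image_image]
        refine image_congr fun x _ => ?_
        simp only [Function.comp]
        rw [hu]
        field_simp
      rw [e1, ← image_inter _ _ (hinj _ hg0), card_image_of_injective _ (hinj _ hg0)]
    have h3 : (A.card : ℝ) / (2 * R) ≤ D.card := by
      have := hj.2
      rwa [h2] at this
    have h4 := ruzsa_triangle_inequality_sub_sub_sub (A.image fun x => u * x) D A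
    have h5 : ((A.image fun x => u * x) - D).card ≤ (A - A).card := by
      have e1 : (A.image fun x => u * x) - D ⊆ (A - A).image fun x => u * x := by
        refine (sub_subset_sub_left inter_subset_left).trans ?_
        intro z hz
        obtain ⟨a, ha, b, hb, rfl⟩ := mem_sub.1 hz
        obtain ⟨a', ha', rfl⟩ := mem_image.1 ha
        obtain ⟨b', hb', rfl⟩ := mem_image.1 hb
        exact mem_image.2 ⟨a' - b', sub_mem_sub ha' hb', by ring⟩
      exact (card_le_card e1).trans card_image_le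
    have h6 : (A - D).card ≤ (A - A).card := card_le_card (sub_subset_sub_left inter_subset_right)
    have h7 : ((((A.image fun x => u * x) - A).card : ℝ)) * D.card ≤ (K * A.card) * (K * A.card) := by
      calc ((((A.image fun x => u * x) - A).card : ℝ)) * D.card ≤
          (((A.image fun x => u * x) - D).card : ℝ) * (A - D).card := by exact_mod_cast h4
        _ ≤ ((A - A).card : ℝ) * (A - A).card := by gcongr
        _ ≤ _ := by gcongr
    have h8 : ((((A.image fun x => u * x) - A).card : ℝ)) * (A.card / (2 * R)) ≤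
        (K * A.card) * (K * A.card) := by
      refine le_trans ?_ h7
      gcongr
    have h9 : ((((A.image fun x => u * x) - A).card : ℝ)) * (A.card / (2 * R)) ≤
        (K ^ 2 * (2 * R) * A.card) * (A.card / (2 * R)) := by
      refine h8.trans (le_of_eq ?_)
      field_simp
    exact le_of_mul_le_mul_right h9 (by positivity)

theorem card_Sp_le {g : ZMod p} {N : ℕ} (hN : N ≤ orderOf g) (hN0 : 0 < N) {t : ℝ} (ht : 0 < t) :
    ((Sp g N t).card : ℝ) * (N * t ^ 2) ≤ p := by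
  have h1 := Pool.Agent.H82.PD.mean_sq g hN
  have h2 : ∑ a ∈ Sp g N t, (t * N) ^ 2 ≤
      ∑ a : ZMod p, ‖∑ j ∈ range N, ZMod.stdAddChar (N := p) (a * g ^ j)‖ ^ 2 := by
    refine le_trans (sum_le_sum fun a ha => ?_)
      (sum_le_sum_of_subset_of_nonneg (subset_univ (Sp g N t)) fun _ _ _ => by positivity)
    have h3 := mem_Sp.1 ha
    unfold Fs at h3
    gcongr
  rw [h1, sum_const, nsmul_eq_mul] at h2
  have hN' : (0 : ℝ) < N := by exact_mod_cast hN0
  have h3 : ((Sp g N t).card * (N * t ^ 2)) * N ≤ p * N := by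
    calc ((Sp g N t).card * (N * t ^ 2)) * N = (Sp g N t).card * (t * N) ^ 2 := by ring
      _ ≤ _ := h2
  exact le_of_mul_le_mul_right h3 hN'

/-- **the local bound** -/
theorem core {g : ZMod p} (hg : g ≠ 0) {N : ℕ} (hN : N ≤ orderOf g) (hN2 : 2 ≤ N) (hp : 4 ≤ p)
    {t M V : ℝ} (ht0 : 0 < t) (ht1 : t ≤ 1) (hM : 1 ≤ M) (hV : 2 ^ 24 * M / t ^ 4 ≤ V)
    (hS : ((Sp g N (t ^ 2 / 2)).card : ℝ) ≤ M * (Sp g N t).card)
    (hlarge : t * N / 4 ≤ (Sp g N t).card) {s : ℝ} (hs : 1 ≤ s)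
    (hsV : s ≤ t * N / (8 * V ^ 2)) (i : ℕ) (hi : (p : ℝ) ≤ s ^ 2 ^ i) :
    N * t ^ 2 ≤ 64 * V ^ (50 * (28 ^ i + 3) + 1) := by
  classical
  have hN0 : 0 < N := by omega
  have hN' : (2 : ℝ) ≤ N := by exact_mod_cast hN2
  have ht4 : t ^ 4 ≤ 1 := pow_le_one₀ ht0.le ht1
  have ht40 : 0 < t ^ 4 := by positivity
  set S := Sp g N t with hSdef
  set S' := Sp g N (t ^ 2 / 2) with hS'def
  have hSpos : (0 : ℝ) < S.card := lt_of_lt_of_le (by positivity) hlarge
  have hSne : S.Nonempty := by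
    rw [← card_pos]
    exact_mod_cast hSpos
  -- the energy
  set K : ℝ := 4 * M / t ^ 4 with hK
  have hK4 : 4 ≤ K := by
    rw [hK, le_div_iff₀ ht40]
    nlinarith
  have hK0 : 0 < K := by linarith
  have hVK : 2 ^ 22 * K ≤ V := by
    refine le_trans (le_of_eq ?_) hV
    rw [hK]
    ring
  have hV1 : 1 ≤ V := by linarith
  have hV0 : 0 < V := by linarith
  have hE : (S.card : ℝ) ^ 3 ≤ K * (S.addEnergy S : ℕ) := by
    have h1 := energy_Sp (g := g) (N := N) ht0.le hN0
    rw [← hSdef, ← hS'def] at h1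
    have h2 : (t ^ 2 / 2 * (S.card : ℝ) ^ 2) ^ 2 ≤ M * S.card * (S.addEnergy S : ℕ) := by
      refine h1.trans ?_
      gcongr
    have h3 : (t ^ 4 / 4 * S.card) * (S.card : ℝ) ^ 3 ≤
        (t ^ 4 / 4 * S.card) * (K * (S.addEnergy S : ℕ)) := by
      calc (t ^ 4 / 4 * S.card) * (S.card : ℝ) ^ 3 = (t ^ 2 / 2 * (S.card : ℝ) ^ 2) ^ 2 := by ring
        _ ≤ _ := h2
        _ = _ := by
          rw [hK]
          field_simp
    exact le_of_mul_le_mul_left h3 (by positivity)
  obtain ⟨A, hAS, hAne, hA1, hA2⟩ := Pool.Agent.H217R3.AK.bsg S hSne K hK0 hE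
  have hA0 : (0 : ℝ) < A.card := by exact_mod_cast hAne.card_pos
  set K₁ : ℝ := 2 ^ 22 * K ^ 10 with hK₁
  have hK₁1 : 1 ≤ K₁ := by
    have : 1 ≤ K ^ 10 := one_le_pow₀ (by linarith)
    rw [hK₁]
    linarith
  have hK₁V : K₁ ≤ V ^ 10 := by
    have h1 : (2 ^ 22 * K) ^ 10 ≤ V ^ 10 := by gcongr
    have h2 : 0 ≤ K ^ 10 := by positivity
    have h3 : (2 : ℝ) ^ 22 * K ^ 10 ≤ (2 ^ 22) ^ 10 * K ^ 10 := by
      gcongr
      norm_num
    calc K₁ = 2 ^ 22 * K ^ 10 := rfl
      _ ≤ _ := h3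
      _ = (2 ^ 22 * K) ^ 10 := by rw [mul_pow]
      _ ≤ _ := h1
  -- the number of multipliers
  set n : ℕ := ⌊t * N / 4⌋₊ + 1 with hn
  have hn1 : t * N / 4 ≤ n := by
    rw [hn]
    push_cast
    exact (Nat.lt_floor_add_one _).le
  have hn2 : ∀ j < n, (j : ℝ) ≤ t * N / 4 := by
    intro j hj
    exact (Nat.le_floor_iff (by positivity)).1 (by omega)
  have hnN : n ≤ N := by
    have h1 : ((⌊t * N / 4⌋₊ : ℕ) : ℝ) ≤ t * N / 4 := Nat.floor_le (by positivity)
    have h2 : t * N ≤ 1 * N := by gcongr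
    have h3 : (n : ℝ) ≤ N := by
      rw [hn]
      push_cast
      linarith
    exact_mod_cast h3
  set R : ℝ := 8 * K * M with hR
  have hMK : M ≤ K := by
    rw [hK, le_div_iff₀ ht40]
    nlinarith
  have hR0 : 0 < R := by positivity
  have hRV : 2 * R ≤ V ^ 2 := by
    have h1 : (2 ^ 22 * K) ^ 2 ≤ V ^ 2 := by gcongr
    rw [hR]
    nlinarith
  have hU : (S'.card : ℝ) ≤ R * A.card := by
    calc (S'.card : ℝ) ≤ M * S.card := hS
      _ ≤ M * (8 * K * A.card) := by gcongr
      _ = _ := by rw [hR]; ring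
  obtain ⟨B, hB1, hB2⟩ := multipliers hg (by omega : 0 < n) (hnN.trans hN) hAne
    (by linarith : 0 ≤ K₁) hR0 hA2 (U := S') (fun j hj x hx => by
      have h1 := mul_pow_mem (hAS hx) (hn2 j hj)
      refine Sp_anti ?_ h1
      nlinarith) hU
  -- the dichotomy
  have hW1 : K₁ ^ 5 ≤ V ^ 50 := by
    calc K₁ ^ 5 ≤ (V ^ 10) ^ 5 := by gcongr
      _ = V ^ 50 := by rw [← pow_mul]
  have hW2 : K₁ ^ 2 * (2 * R) ≤ V ^ 50 := by
    calc K₁ ^ 2 * (2 * R) ≤ (V ^ 10) ^ 2 * V ^ 2 := by gcongr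
      _ = V ^ 22 := by rw [← pow_mul, ← pow_add]
      _ ≤ V ^ 50 := pow_le_pow_right₀ hV1 (by norm_num)
  have hBs : 2 * s ≤ B.card := by
    refine le_trans ?_ hB1
    rw [le_div_iff₀ (by positivity)]
    have h1 : s * (8 * V ^ 2) ≤ t * N := by
      rwa [le_div_iff₀ (by positivity)] at hsV
    have h2 : 2 * s * (2 * R) ≤ 2 * s * V ^ 2 := by gcongr
    linarith
  have hfin := dichotomy hAne hK₁1 hA2 hW1 hp hs hBs (fun u hu => (hB2 u hu).mono hW2) i hi
  set E := 28 ^ i + 3 with hE'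
  have hVE : (V ^ 50) ^ E = V ^ (50 * E) := by rw [← pow_mul]
  rw [hVE] at hfin
  have hVE0 : 0 < V ^ (50 * E) := by positivity
  rcases hfin with h | h
  · -- `A` is not small
    have h1 : t * N / 4 ≤ 8 * K * A.card := hlarge.trans hA1
    have h2 : t * N ≤ 64 * V ^ (50 * E + 1) := by
      calc t * N ≤ 32 * K * A.card := by linarith
        _ ≤ 32 * V * (2 * V ^ (50 * E)) := by
          have : K ≤ V := by linarith
          gcongr
        _ = _ := by ring
    refine le_trans ?_ h2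
    have : t ^ 2 ≤ t := by nlinarith
    nlinarith
  · -- `A` is not large
    have h1 := card_Sp_le hN hN0 ht0
    rw [← hSdef] at h1
    have h2 : (A.card : ℝ) ≤ S.card := by exact_mod_cast card_le_card hAS
    have h3 : (A.card : ℝ) * (N * t ^ 2) ≤ A.card * (4 * V ^ (50 * E)) := by
      calc (A.card : ℝ) * (N * t ^ 2) ≤ S.card * (N * t ^ 2) := by gcongr
        _ ≤ (p : ℝ) := h1
        _ ≤ 4 * V ^ (50 * E) * A.card := h
        _ = A.card * (4 * V ^ (50 * E)) := by ring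
    have h4 := le_of_mul_le_mul_left h3 hA0
    have h5 : V ^ (50 * E) ≤ V ^ (50 * E + 1) := pow_le_pow_right₀ hV1 (by omega)
    linarith

end Pool.Agent.H82.BGK
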