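import Mathlib

/-!
# Multipliers which approximately preserve a set of small doubling
-/

set_option autoImplicit false

namespace Pool.Agent.H82.BGK

open Finset
open scoped Pointwise

variable {F : Type*} [CommRing F] [DecidableEq F]

/-- `u • A` is covered by `L` translates of `A - A` -/
def Cv (A : Finset F) (L : ℝ) (u : F) : Prop :=
  ∃ X : Finset F, (X.card : ℝ) ≤ L ∧ ∀ a ∈ A, ∃ x ∈ X, ∃ a1 ∈ A, ∃ a2 ∈ A, u * a = x + (a1 - a2)

/-- `2 A - 2 A` is covered by `Q` translates of `A - A` -/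
def Db (A : Finset F) (Q : ℝ) : Prop :=
  ∃ Y : Finset F, (Y.card : ℝ) ≤ Q ∧ ∀ a1 ∈ A, ∀ a2 ∈ A, ∀ a3 ∈ A, ∀ a4 ∈ A,
    ∃ y ∈ Y, ∃ a5 ∈ A, ∃ a6 ∈ A, a1 + a3 - (a2 + a4) = y + (a5 - a6)

omit [DecidableEq F] in
theorem Cv.mono {A : Finset F} {L L' : ℝ} (h : L ≤ L') {u : F} (hu : Cv A L u) : Cv A L' u := by
  obtain ⟨X, h1, h2⟩ := hu
  exact ⟨X, h1.trans h, h2⟩

theorem Cv.neg {A : Finset F} {L : ℝ} {u : F} (hu : Cv A L u) : Cv A L (-u) := by
  obtain ⟨X, h1, h2⟩ := hu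
  refine ⟨X.image (fun x => -x), ?_, fun a ha => ?_⟩
  · refine le_trans ?_ h1
    exact_mod_cast card_image_le
  · obtain ⟨x, hx, a1, ha1, a2, ha2, e⟩ := h2 a ha
    refine ⟨-x, mem_image_of_mem _ hx, a2, ha2, a1, ha1, ?_⟩
    linear_combination -e

theorem Cv.add {A : Finset F} {Q L L' : ℝ} (hA : Db A Q) {u v : F} (hu : Cv A L u)
    (hv : Cv A L' v) : Cv A (L * L' * Q) (u + v) := by
  obtain ⟨X, hX1, hX2⟩ := hu
  obtain ⟨X', hX1', hX2'⟩ := hv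
  obtain ⟨Y, hY1, hY2⟩ := hA
  refine ⟨(X ×ˢ X' ×ˢ Y).image (fun w => w.1 + w.2.1 + w.2.2), ?_, fun a ha => ?_⟩
  · have h1 : (((X ×ˢ X' ×ˢ Y).image (fun w => w.1 + w.2.1 + w.2.2)).card : ℝ) ≤
        ((X.card * (X'.card * Y.card) : ℕ) : ℝ) := by
      rw [← card_product, ← card_product]
      exact_mod_cast card_image_le
    refine h1.trans ?_
    push_cast
    have hL : 0 ≤ L := (Nat.cast_nonneg _).trans hX1
    have hL' : 0 ≤ L' := (Nat.cast_nonneg _).trans hX1'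
    calc (X.card : ℝ) * (X'.card * Y.card) ≤ L * (L' * Q) := by gcongr
      _ = L * L' * Q := by ring
  · obtain ⟨x, hx, a1, ha1, a2, ha2, e⟩ := hX2 a ha
    obtain ⟨x', hx', a3, ha3, a4, ha4, e'⟩ := hX2' a ha
    obtain ⟨y, hy, a5, ha5, a6, ha6, e''⟩ := hY2 a1 ha1 a2 ha2 a3 ha3 a4 ha4
    refine ⟨x + x' + y, ?_, a5, ha5, a6, ha6, ?_⟩
    · exact mem_image.2 ⟨(x, x', y), mem_product.2 ⟨hx, mem_product.2 ⟨hx', hy⟩⟩, rfl⟩
    · linear_combination e + e' + e''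

theorem Cv.sub {A : Finset F} {Q L L' : ℝ} (hA : Db A Q) {u v : F} (hu : Cv A L u)
    (hv : Cv A L' v) : Cv A (L * L' * Q) (u - v) := by
  rw [sub_eq_add_neg]
  exact hu.add hA hv.neg

theorem Cv.mul {A : Finset F} {Q L L' : ℝ} (hA : Db A Q) {u v : F} (hu : Cv A L u)
    (hv : Cv A L' v) : Cv A (L ^ 2 * L' * Q) (u * v) := by
  obtain ⟨X, hX1, hX2⟩ := hu
  obtain ⟨X', hX1', hX2'⟩ := hv
  obtain ⟨Y, hY1, hY2⟩ := hA
  refine ⟨(X ×ˢ X ×ˢ X' ×ˢ Y).image (fun w => u * w.2.2.1 + w.1 - w.2.1 + w.2.2.2), ?_,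
    fun a ha => ?_⟩
  · have h1 : (((X ×ˢ X ×ˢ X' ×ˢ Y).image
        (fun w => u * w.2.2.1 + w.1 - w.2.1 + w.2.2.2)).card : ℝ) ≤
        ((X.card * (X.card * (X'.card * Y.card)) : ℕ) : ℝ) := by
      rw [← card_product, ← card_product, ← card_product]
      exact_mod_cast card_image_le
    refine h1.trans ?_
    push_cast
    have hL : 0 ≤ L := (Nat.cast_nonneg _).trans hX1
    have hL' : 0 ≤ L' := (Nat.cast_nonneg _).trans hX1'
    calc (X.card : ℝ) * (X.card * (X'.card * Y.card)) ≤ L * (L * (L' * Q)) := by gcongr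
      _ = L ^ 2 * L' * Q := by ring
  · obtain ⟨x', hx', a1, ha1, a2, ha2, e⟩ := hX2' a ha
    obtain ⟨x1, hx1, a3, ha3, a4, ha4, e1⟩ := hX2 a1 ha1
    obtain ⟨x2, hx2, a5, ha5, a6, ha6, e2⟩ := hX2 a2 ha2
    obtain ⟨y, hy, a7, ha7, a8, ha8, e3⟩ := hY2 a3 ha3 a4 ha4 a6 ha6 a5 ha5
    refine ⟨u * x' + x1 - x2 + y, ?_, a7, ha7, a8, ha8, ?_⟩
    · exact mem_image.2 ⟨(x1, x2, x', y), mem_product.2 ⟨hx1, mem_product.2 ⟨hx2,
        mem_product.2 ⟨hx', hy⟩⟩⟩, rfl⟩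
    · linear_combination u * e + e1 - e2 + e3

/-- the covering of `2 A - 2 A` from the doubling -/
theorem db_of {A : Finset F} (hA : A.Nonempty) {K : ℝ} (hK : ((A - A).card : ℝ) ≤ K * A.card) :
    Db A (K ^ 5) := by
  have hA0 : (0 : ℝ) < A.card := by exact_mod_cast hA.card_pos
  have h1 := pluennecke_ruzsa_inequality_nsmul_sub_nsmul_sub hA A 3 2
  have h2 : ((3 • A - 2 • A).card : ℝ) ≤ K ^ 5 * A.card := by
    have h3 : ((3 • A - 2 • A).card : ℝ) ≤ (((A - A).card : ℝ) / A.card) ^ (3 + 2) * A.card := by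
      have h0 := (NNRat.cast_le (K := ℝ)).2 h1
      push_cast at h0
      exact h0
    refine h3.trans ?_
    have h4 : ((A - A).card : ℝ) / A.card ≤ K := by
      rw [div_le_iff₀ hA0]
      exact hK
    gcongr
  set T := (A + A) - (A + A) with hT
  have h3 : T + A = 3 • A - 2 • A := by
    rw [hT, succ_nsmul, two_nsmul, sub_add_eq_add_sub]
  rw [← h3] at h2
  obtain ⟨Y, _, hY1, hY2⟩ := ruzsa_covering_add hA h2
  refine ⟨Y, hY1, fun a1 ha1 a2 ha2 a3 ha3 a4 ha4 => ?_⟩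
  have h4 : a1 + a3 - (a2 + a4) ∈ T := sub_mem_sub (add_mem_add ha1 ha3) (add_mem_add ha2 ha4)
  obtain ⟨y, hy, d, hd, e⟩ := mem_add.1 (hY2 h4)
  obtain ⟨a5, ha5, a6, ha6, e'⟩ := mem_sub.1 hd
  exact ⟨y, hy, a5, ha5, a6, ha6, by rw [e', e]⟩

/-- a multiplier with a small difference set -/
theorem cv_of {A : Finset F} (hA : A.Nonempty) {K : ℝ} {u : F}
    (h : (((A.image fun a => u * a) - A).card : ℝ) ≤ K * A.card) : Cv A K u := by
  have h1 : (((A.image fun a => u * a) + (-A)).card : ℝ) ≤ K * (-A).card := by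
    rw [← sub_eq_add_neg, card_neg]
    exact h
  obtain ⟨X, _, hX1, hX2⟩ := ruzsa_covering_add hA.neg h1
  refine ⟨X, hX1, fun a ha => ?_⟩
  obtain ⟨x, hx, d, hd, e⟩ := mem_add.1 (hX2 (mem_image_of_mem (fun a => u * a) ha))
  obtain ⟨a1, ha1, a2, ha2, e'⟩ := mem_sub.1 hd
  refine ⟨x, hx, -a2, by simpa using ha2, -a1, by simpa using ha1, ?_⟩
  rw [← e, ← e']
  ring

/-- the sums `a + u a'` for a multiplier `u` -/
theorem card_le_of_cv {A : Finset F} (hA : A.Nonempty) {K L : ℝ}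
    (hK : ((A - A).card : ℝ) ≤ K * A.card) {u : F} (hu : Cv A L u) :
    (((A ×ˢ A).image fun w => w.1 + u * w.2).card : ℝ) ≤ L * (K ^ 3 * A.card) := by
  obtain ⟨X, hX1, hX2⟩ := hu
  have hA0 : (0 : ℝ) < A.card := by exact_mod_cast hA.card_pos
  have h1 := pluennecke_ruzsa_inequality_nsmul_sub_nsmul_sub hA A 2 1
  have h2 : ((2 • A - 1 • A).card : ℝ) ≤ K ^ 3 * A.card := by
    have h3 : ((2 • A - 1 • A).card : ℝ) ≤ (((A - A).card : ℝ) / A.card) ^ (2 + 1) * A.card := by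
      have h0 := (NNRat.cast_le (K := ℝ)).2 h1
      push_cast at h0
      exact h0
    refine h3.trans ?_
    have h4 : ((A - A).card : ℝ) / A.card ≤ K := by
      rw [div_le_iff₀ hA0]
      exact hK
    gcongr
  have hsub : ((A ×ˢ A).image fun w => w.1 + u * w.2) ⊆ X + (2 • A - 1 • A) := by
    intro z hz
    obtain ⟨w, hw, rfl⟩ := mem_image.1 hz
    rw [mem_product] at hw
    obtain ⟨x, hx, a1, ha1, a2, ha2, e⟩ := hX2 w.2 hw.2
    refine mem_add.2 ⟨x, hx, w.1 + a1 - a2, ?_, ?_⟩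
    · rw [two_nsmul, one_nsmul]
      exact sub_mem_sub (add_mem_add hw.1 ha1) ha2
    · rw [e]
      ring
  have hL : 0 ≤ L := (Nat.cast_nonneg _).trans hX1
  calc (((A ×ˢ A).image fun w => w.1 + u * w.2).card : ℝ) ≤ ((X + (2 • A - 1 • A)).card : ℝ) := by
        exact_mod_cast card_le_card hsub
    _ ≤ ((X.card * (2 • A - 1 • A).card : ℕ) : ℝ) := by exact_mod_cast card_add_le
    _ = (X.card : ℝ) * ((2 • A - 1 • A).card : ℝ) := by push_cast; rfl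
    _ ≤ L * (K ^ 3 * A.card) := by gcongr

end Pool.Agent.H82.BGK
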