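import Pool.Agent.H82.BGK.Cover

/-!
# Growth of sets of multipliers
-/

set_option autoImplicit false

namespace Pool.Agent.H82.BGK

open Finset
open scoped Pointwise

section

variable {F : Type*} [Field F] [DecidableEq F]

/-- the sums `a + u a'` -/
def Sm (A : Finset F) (u : F) : Finset F := (A ×ˢ A).image fun w => w.1 + u * w.2

/-- the number of coincidences -/
def En (A : Finset F) (u : F) : ℕ :=
  (((A ×ˢ A) ×ˢ (A ×ˢ A)).filter fun w => w.1.1 + u * w.1.2 = w.2.1 + u * w.2.2).card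

theorem card_le_en (A : Finset F) (u : F) : A.card ^ 4 ≤ (Sm A u).card * En A u := by
  have h1 : (A ×ˢ A).card = ∑ s ∈ Sm A u, ((A ×ˢ A).filter fun w => w.1 + u * w.2 = s).card :=
    card_eq_sum_card_image _ _
  have h2 : En A u = ∑ s ∈ Sm A u, ((A ×ˢ A).filter fun w => w.1 + u * w.2 = s).card ^ 2 := by
    unfold En
    rw [card_eq_sum_card_fiberwise (f := fun w : (F × F) × (F × F) => w.1.1 + u * w.1.2)
      (t := Sm A u)]
    · refine sum_congr rfl fun s _ => ?_
      rw [sq, ← card_product]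
      congr 1
      ext w
      simp only [mem_filter, mem_product]
      constructor
      · rintro ⟨⟨⟨h1, h2⟩, h3⟩, h4⟩
        exact ⟨⟨h1, h4⟩, ⟨h2, h3 ▸ h4⟩⟩
      · rintro ⟨⟨h1, h4⟩, ⟨h2, h5⟩⟩
        exact ⟨⟨⟨h1, h2⟩, h4.trans h5.symm⟩, h4⟩
    · intro w hw
      rw [mem_coe, mem_filter, mem_product] at hw
      exact mem_image_of_mem (fun w : F × F => w.1 + u * w.2) hw.1.1
  have h3 := sq_sum_le_card_mul_sum_sq (s := Sm A u)
    (f := fun s => ((A ×ˢ A).filter fun w => w.1 + u * w.2 = s).card)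
  rw [← h1, ← h2, card_product] at h3
  calc A.card ^ 4 = (A.card * A.card) ^ 2 := by ring
    _ ≤ _ := h3

/-- the number of coincidences on average -/
theorem sum_en_le (A G : Finset F) : ∑ u ∈ G, En A u ≤ G.card * A.card ^ 2 + A.card ^ 4 := by
  classical
  have h1 : ∀ u ∈ G, En A u ≤ A.card ^ 2 +
      (((A ×ˢ A) ×ˢ (A ×ˢ A)).filter fun w => w.1.2 ≠ w.2.2 ∧
        w.1.1 + u * w.1.2 = w.2.1 + u * w.2.2).card := by
    intro u _
    unfold En
    have h2 : (((A ×ˢ A) ×ˢ (A ×ˢ A)).filter fun w => w.1.1 + u * w.1.2 = w.2.1 + u * w.2.2) ⊆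
        ((A ×ˢ A).image fun w => (w, w)) ∪ (((A ×ˢ A) ×ˢ (A ×ˢ A)).filter fun w =>
          w.1.2 ≠ w.2.2 ∧ w.1.1 + u * w.1.2 = w.2.1 + u * w.2.2) := by
      intro w hw
      rw [mem_filter, mem_product] at hw
      obtain ⟨⟨h3, h4⟩, h5⟩ := hw
      rw [mem_union]
      by_cases h6 : w.1.2 = w.2.2
      · left
        refine mem_image.2 ⟨w.1, h3, ?_⟩
        have h7 : w.1.1 = w.2.1 := by
          rw [h6] at h5
          exact add_right_cancel h5
        have h8 : w.1 = w.2 := Prod.ext h7 h6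
        exact Prod.ext rfl h8
      · right
        rw [mem_filter, mem_product]
        exact ⟨⟨h3, h4⟩, h6, h5⟩
    refine (card_le_card h2).trans ((card_union_le _ _).trans ?_)
    gcongr
    refine card_image_le.trans ?_
    rw [card_product, sq]
  refine (sum_le_sum h1).trans ?_
  rw [sum_add_distrib, sum_const, smul_eq_mul]
  gcongr
  rw [← card_sigma]
  have h3 : A.card ^ 4 = ((A ×ˢ A) ×ˢ (A ×ˢ A)).card := by
    simp only [card_product]
    ring
  rw [h3]
  refine card_le_card_of_injOn (fun x => x.2) ?_ ?_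
  · intro x hx
    rw [mem_coe, mem_sigma, mem_filter] at hx
    exact hx.2.1
  · rintro ⟨u, w⟩ hx ⟨u', w'⟩ hx' h
    rw [mem_coe, mem_sigma, mem_filter] at hx hx'
    simp only at h hx hx'
    subst h
    obtain ⟨_, _, hne, h4⟩ := hx
    obtain ⟨_, _, _, h5⟩ := hx'
    have h6 : (u - u') * (w.1.2 - w.2.2) = 0 := by linear_combination h4 - h5
    have h7 : u = u' := by
      rcases mul_eq_zero.1 h6 with h | h
      · exact sub_eq_zero.1 h
      · exact absurd (sub_eq_zero.1 h) hne
    subst h7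
    rfl

/-- some sum set is large -/
theorem exists_large {A G : Finset F} (hA : A.Nonempty) (hG : G.Nonempty) :
    ∃ u ∈ G, A.card ^ 2 * G.card ≤ (Sm A u).card * (G.card + A.card ^ 2) := by
  by_contra hcon
  push Not at hcon
  have hA0 : 0 < A.card := hA.card_pos
  have hG0 : 0 < G.card := hG.card_pos
  -- `(|G| + |A|^2) |A|^4 ≤ |A + u A| (|G| + |A|^2) E < |A|^2 |G| E`
  have h1 : ∀ u ∈ G, (G.card + A.card ^ 2) * A.card ^ 2 < G.card * En A u := by
    intro u hu
    have h2 := card_le_en A u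
    have h3 := hcon u hu
    have hE : 0 < En A u := by
      by_contra h0
      have h0' : En A u = 0 := by omega
      rw [h0', mul_zero] at h2
      have : 0 < A.card ^ 4 := by positivity
      omega
    have h4 : A.card ^ 2 * ((G.card + A.card ^ 2) * A.card ^ 2) < A.card ^ 2 * (G.card * En A u) := by
      calc A.card ^ 2 * ((G.card + A.card ^ 2) * A.card ^ 2) =
          (G.card + A.card ^ 2) * A.card ^ 4 := by ring
        _ ≤ (G.card + A.card ^ 2) * ((Sm A u).card * En A u) := by gcongr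
        _ = (Sm A u).card * (G.card + A.card ^ 2) * En A u := by ring
        _ < A.card ^ 2 * G.card * En A u := by gcongr
        _ = A.card ^ 2 * (G.card * En A u) := by ring
    exact lt_of_mul_lt_mul_left h4 (by positivity)
  have h5 : ∑ u ∈ G, ((G.card + A.card ^ 2) * A.card ^ 2) < ∑ u ∈ G, G.card * En A u :=
    sum_lt_sum_of_nonempty hG h1
  rw [sum_const, smul_eq_mul, ← mul_sum] at h5
  have h6 := sum_en_le A G
  have h7 : G.card * ∑ u ∈ G, En A u ≤ G.card * ((G.card + A.card ^ 2) * A.card ^ 2) := by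
    gcongr
    calc _ ≤ _ := h6
      _ = _ := by ring
  omega

end

section

variable {p : ℕ} [Fact p.Prime]

theorem exists_step {R : Set (ZMod p)} (h0 : 0 ∈ R) (hR : R ≠ Set.univ) :
    ∃ x ∈ R, x + 1 ∉ R := by
  by_contra hcon
  push Not at hcon
  apply hR
  have h1 : ∀ n : ℕ, (n : ZMod p) ∈ R := by
    intro n
    induction n with
    | zero => simpa using h0
    | succ n ih =>
      push_cast
      exact hcon _ ih
  ext x
  simp only [Set.mem_univ, iff_true]
  have := h1 x.val
  rwa [ZMod.natCast_zmod_val] at this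

/-- **growth**: some set `d₁ B + d₂ B` is large, where `d₁` and `d₂` are simple combinations of elements
of `B` -/
theorem growth {B : Finset (ZMod p)} (hB : 2 ≤ B.card) :
    ∃ b1 ∈ B, ∃ b2 ∈ B, ∃ b3 ∈ B, ∃ b4 ∈ B, ∃ d : ZMod p,
      (d = b1 - b2 ∨ d = (b1 - b2) + (b3 - b4)) ∧
      min (B.card ^ 2) p ≤ 2 * ((B ×ˢ B).image fun w => (b3 - b4) * w.1 + d * w.2).card := by
  classical
  have hBne : B.Nonempty := card_pos.1 (by omega)
  set R : Set (ZMod p) := {x | ∃ b1 ∈ B, ∃ b2 ∈ B, ∃ b3 ∈ B, ∃ b4 ∈ B, b3 ≠ b4 ∧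
    x = (b1 - b2) / (b3 - b4)} with hR
  -- the sums with a factor
  have hscale : ∀ (d1 d u : ZMod p), d1 ≠ 0 → d = d1 * u →
      ((B ×ˢ B).image fun w => d1 * w.1 + d * w.2).card = (Sm B u).card := by
    intro d1 d u hd1 hd
    have h1 : ((B ×ˢ B).image fun w => d1 * w.1 + d * w.2) = (Sm B u).image fun z => d1 * z := by
      unfold Sm
      rw [image_image]
      refine image_congr fun w _ => ?_
      simp only [Function.comp]
      rw [hd]
      ring
    rw [h1, card_image_of_injective _ (mul_right_injective₀ hd1)]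
  by_cases hcase : R = Set.univ
  · obtain ⟨u, _, hu⟩ := exists_large hBne (univ_nonempty : (univ : Finset (ZMod p)).Nonempty)
    have hu' : u ∈ R := by rw [hcase]; exact Set.mem_univ _
    obtain ⟨b1, hb1, b2, hb2, b3, hb3, b4, hb4, hne, he⟩ := hu'
    have hd1 : b3 - b4 ≠ 0 := sub_ne_zero.2 hne
    refine ⟨b1, hb1, b2, hb2, b3, hb3, b4, hb4, b1 - b2, Or.inl rfl, ?_⟩
    rw [hscale _ _ u hd1 (by rw [he]; field_simp)]
    rw [card_univ, ZMod.card] at hu
    have hp0 : 0 < p := (Fact.out : p.Prime).pos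
    rcases le_total (B.card ^ 2) p with h | h
    · rw [min_eq_left h]
      have h3 : B.card ^ 2 * p ≤ (2 * (Sm B u).card) * p := by
        calc B.card ^ 2 * p ≤ (Sm B u).card * (p + B.card ^ 2) := hu
          _ ≤ (Sm B u).card * (p + p) := by gcongr
          _ = _ := by ring
      exact Nat.le_of_mul_le_mul_right h3 hp0
    · rw [min_eq_right h]
      have hB0 : 0 < B.card ^ 2 := by positivity
      have h3 : p * B.card ^ 2 ≤ (2 * (Sm B u).card) * B.card ^ 2 := by
        calc p * B.card ^ 2 = B.card ^ 2 * p := by ring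
          _ ≤ (Sm B u).card * (p + B.card ^ 2) := hu
          _ ≤ (Sm B u).card * (B.card ^ 2 + B.card ^ 2) := by gcongr
          _ = _ := by ring
      exact Nat.le_of_mul_le_mul_right h3 hB0
  · have h0 : (0 : ZMod p) ∈ R := by
      obtain ⟨b3, hb3, b4, hb4, hne⟩ := Finset.one_lt_card.1 (by omega : 1 < B.card)
      exact ⟨b3, hb3, b3, hb3, b3, hb3, b4, hb4, hne, by simp⟩
    obtain ⟨x, ⟨b1, hb1, b2, hb2, b3, hb3, b4, hb4, hne, he⟩, hx⟩ := exists_step h0 hcase
    have hd1 : b3 - b4 ≠ 0 := sub_ne_zero.2 hne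
    refine ⟨b1, hb1, b2, hb2, b3, hb3, b4, hb4, (b1 - b2) + (b3 - b4), Or.inr rfl, ?_⟩
    rw [hscale _ _ (x + 1) hd1 (by rw [he]; field_simp)]
    have h1 : (Sm B (x + 1)).card = B.card ^ 2 := by
      unfold Sm
      rw [card_image_of_injOn, card_product, sq]
      intro w hw w' hw' h
      rw [mem_coe, mem_product] at hw hw'
      simp only at h
      by_cases h2 : w.2 = w'.2
      · rw [h2] at h
        exact Prod.ext (add_right_cancel h) h2
      · exfalso
        apply hx
        refine ⟨w'.1, hw'.1, w.1, hw.1, w.2, hw.2, w'.2, hw'.2, h2, ?_⟩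
        have h3 : w.2 - w'.2 ≠ 0 := sub_ne_zero.2 h2
        rw [eq_div_iff h3]
        linear_combination h
    rw [h1]
    have := min_le_left (B.card ^ 2) p
    omega

end

end Pool.Agent.H82.BGK
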