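import Pool.Agent.H82.BGK.Grow

/-!
# Iterated growth of a set of multipliers
-/

set_option autoImplicit false

namespace Pool.Agent.H82.BGK

open Finset
open scoped Pointwise

variable {p : ℕ} [Fact p.Prime]

theorem iter_step {A : Finset (ZMod p)} {Q L : ℝ} (hQ : 1 ≤ Q) (hL : 1 ≤ L) (hA : Db A Q)
    {B : Finset (ZMod p)} (hB : 2 ≤ B.card) (hBA : ∀ u ∈ B, Cv A L u) :
    ∃ B' : Finset (ZMod p), (min ((B.card : ℝ) ^ 2) p ≤ 2 * B'.card) ∧
      ∀ u ∈ B', Cv A ((L * Q) ^ 14) u := by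
  obtain ⟨b1, hb1, b2, hb2, b3, hb3, b4, hb4, d, hd, hcard⟩ := growth hB
  refine ⟨(B ×ˢ B).image fun w => (b3 - b4) * w.1 + d * w.2, ?_, ?_⟩
  · exact_mod_cast hcard
  · intro u hu
    obtain ⟨w, hw, rfl⟩ := mem_image.1 hu
    rw [mem_product] at hw
    have h34 : Cv A (L * L * Q) (b3 - b4) := (hBA _ hb3).sub hA (hBA _ hb4)
    have h12 : Cv A (L * L * Q) (b1 - b2) := (hBA _ hb1).sub hA (hBA _ hb2)
    have hLQ : 1 ≤ L * L * Q := by
      have : 1 ≤ L * L := by nlinarith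
      nlinarith
    have hdc : Cv A ((L * L * Q) * (L * L * Q) * Q) d := by
      rcases hd with h | h
      · rw [h]
        refine h12.mono ?_
        have h1 : L * L * Q * 1 ≤ L * L * Q * (L * L * Q) := by gcongr
        have h2 : L * L * Q * (L * L * Q) * 1 ≤ L * L * Q * (L * L * Q) * Q := by gcongr
        linarith
      · rw [h]
        exact h12.add hA h34
    have e1 := (h34.mul hA (hBA _ hw.1)).add hA (hdc.mul hA (hBA _ hw.2))
    refine e1.mono ?_
    have e2 : (L * L * Q) ^ 2 * L * Q * ((L * L * Q * (L * L * Q) * Q) ^ 2 * L * Q) * Q =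
        L ^ 14 * Q ^ 11 := by ring
    rw [e2, mul_pow]
    have e3 : Q ^ 11 ≤ Q ^ 14 := pow_le_pow_right₀ hQ (by norm_num)
    gcongr

theorem iter {A : Finset (ZMod p)} {W : ℝ} (hW : 1 ≤ W) (hA : Db A W) (hp : 4 ≤ p) {s : ℝ}
    (hs : 1 ≤ s) {B : Finset (ZMod p)} (hB : 2 * s ≤ B.card) (hBA : ∀ u ∈ B, Cv A W u) (i : ℕ) :
    ∃ B' : Finset (ZMod p), min (2 * s ^ 2 ^ i) ((p : ℝ) / 2) ≤ B'.card ∧
      ∀ u ∈ B', Cv A (W ^ 28 ^ i) u := by
  have hp' : (4 : ℝ) ≤ p := by exact_mod_cast hp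
  induction i with
  | zero =>
    refine ⟨B, ?_, ?_⟩
    · simp only [pow_zero, pow_one]
      exact (min_le_left _ _).trans hB
    · simpa using hBA
  | succ i ih =>
    obtain ⟨B₁, h1, h2⟩ := ih
    have hs2 : 1 ≤ s ^ 2 ^ i := one_le_pow₀ hs
    have h3 : (2 : ℝ) ≤ B₁.card := by
      refine le_trans (le_min ?_ ?_) h1
      · linarith
      · linarith
    have h3' : 2 ≤ B₁.card := by exact_mod_cast h3
    obtain ⟨B', h4, h5⟩ := iter_step hW (one_le_pow₀ hW : 1 ≤ W ^ 28 ^ i) hA h3' h2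
    refine ⟨B', ?_, fun u hu => (h5 u hu).mono ?_⟩
    · -- the size
      have h6 : 2 * min (2 * s ^ 2 ^ (i + 1)) ((p : ℝ) / 2) ≤ min ((B₁.card : ℝ) ^ 2) p := by
        rcases le_total (2 * s ^ 2 ^ i) ((p : ℝ) / 2) with h | h
        · rw [min_eq_left h] at h1
          refine le_min ?_ ?_
          · have h7 : s ^ 2 ^ (i + 1) = (s ^ 2 ^ i) ^ 2 := by
              rw [← pow_mul, pow_succ]
            have h8 := min_le_left (2 * s ^ 2 ^ (i + 1)) ((p : ℝ) / 2)
            rw [h7] at h8 ⊢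
            have h9 : (2 * s ^ 2 ^ i) ^ 2 ≤ (B₁.card : ℝ) ^ 2 := by gcongr
            nlinarith
          · have h8 := min_le_right (2 * s ^ 2 ^ (i + 1)) ((p : ℝ) / 2)
            linarith
        · rw [min_eq_right h] at h1
          have h8 := min_le_right (2 * s ^ 2 ^ (i + 1)) ((p : ℝ) / 2)
          refine le_min ?_ ?_
          · have h9 : ((p : ℝ) / 2) ^ 2 ≤ (B₁.card : ℝ) ^ 2 := by gcongr
            nlinarith
          · linarith
      linarith
    · -- the constant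
      have h7 : W ^ 28 ^ i * W ≤ (W ^ 28 ^ i) ^ 2 := by
        rw [sq]
        have : W ^ 1 ≤ W ^ 28 ^ i := pow_le_pow_right₀ hW (Nat.one_le_pow _ _ (by norm_num))
        rw [pow_one] at this
        gcongr
      calc (W ^ 28 ^ i * W) ^ 14 ≤ ((W ^ 28 ^ i) ^ 2) ^ 14 := by gcongr
        _ = W ^ 28 ^ (i + 1) := by
          rw [← pow_mul, ← pow_mul, pow_succ]

/-- **a set with many multipliers is very small or very large** -/
theorem dichotomy {A : Finset (ZMod p)} (hAne : A.Nonempty) {K W : ℝ} (hK : 1 ≤ K)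
    (hAK : ((A - A).card : ℝ) ≤ K * A.card) (hKW : K ^ 5 ≤ W) (hp : 4 ≤ p)
    {s : ℝ} (hs : 1 ≤ s) {B : Finset (ZMod p)} (hB : 2 * s ≤ B.card) (hBA : ∀ u ∈ B, Cv A W u)
    (i : ℕ) (hi : (p : ℝ) ≤ s ^ 2 ^ i) :
    (A.card : ℝ) ≤ 2 * W ^ (28 ^ i + 3) ∨ (p : ℝ) ≤ 4 * W ^ (28 ^ i + 3) * A.card := by
  have hp' : (4 : ℝ) ≤ p := by exact_mod_cast hp
  have hA0 : (0 : ℝ) < A.card := by exact_mod_cast hAne.card_pos
  have hW : 1 ≤ W := (one_le_pow₀ hK).trans hKW
  have hKW' : K ≤ W := le_trans (le_self_pow₀ hK (by norm_num)) hKW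
  have hDb : Db A W := by
    obtain ⟨Y, hY1, hY2⟩ := db_of hAne hAK
    exact ⟨Y, hY1.trans hKW, hY2⟩
  obtain ⟨B', h1, h2⟩ := iter hW hDb hp hs hB hBA i
  have h3 : (p : ℝ) / 2 ≤ B'.card := by
    refine le_trans (le_min ?_ le_rfl) h1
    linarith
  have hB' : B'.Nonempty := by
    rw [← card_pos]
    have : (0 : ℝ) < B'.card := by linarith
    exact_mod_cast this
  obtain ⟨u, hu, h4⟩ := exists_large hAne hB'
  have h5 := card_le_of_cv hAne hAK (h2 u hu)
  have h4' : (A.card : ℝ) ^ 2 * B'.card ≤ (Sm A u).card * (B'.card + (A.card : ℝ) ^ 2) := by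
    exact_mod_cast h4
  set E := 28 ^ i with hE
  set C : ℝ := W ^ (E + 3) with hC
  have h6 : ((Sm A u).card : ℝ) ≤ C * A.card := by
    refine h5.trans ?_
    rw [hC, pow_add]
    have : K ^ 3 ≤ W ^ 3 := by gcongr
    calc W ^ E * (K ^ 3 * A.card) ≤ W ^ E * (W ^ 3 * A.card) := by gcongr
      _ = _ := by ring
  have h7 : (A.card : ℝ) * B'.card ≤ C * (B'.card + (A.card : ℝ) ^ 2) := by
    have h8 : (A.card : ℝ) * (A.card * B'.card) ≤ A.card * (C * (B'.card + (A.card : ℝ) ^ 2)) := by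
      calc (A.card : ℝ) * (A.card * B'.card) = (A.card : ℝ) ^ 2 * B'.card := by ring
        _ ≤ _ := h4'
        _ ≤ C * A.card * (B'.card + (A.card : ℝ) ^ 2) := by gcongr
        _ = _ := by ring
    exact le_of_mul_le_mul_left h8 hA0
  have hC0 : 0 < C := by positivity
  rcases le_total ((A.card : ℝ) ^ 2) B'.card with h | h
  · left
    have h8 : (A.card : ℝ) * B'.card ≤ 2 * C * B'.card := by nlinarith
    exact le_of_mul_le_mul_right h8 (by linarith)
  · right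
    have h8 : (B'.card : ℝ) * A.card ≤ (2 * C * A.card) * A.card := by nlinarith
    have h9 := le_of_mul_le_mul_right h8 hA0
    linarith

end Pool.Agent.H82.BGK
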