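import Pool.Agent.H82.BGK.Iter
import Pool.Agent.H217R3.AK.Bsg

/-!
# The large spectrum of a run of consecutive powers
-/

set_option autoImplicit false

namespace Pool.Agent.H82.BGK

open Finset
open scoped Pointwise

variable {p : ℕ} [NeZero p]

/-- the sum over the first `N` powers -/
noncomputable def Fs (g : ZMod p) (N : ℕ) (x : ZMod p) : ℂ :=
  ∑ i ∈ range N, ZMod.stdAddChar (N := p) (x * g ^ i)

/-- the large spectrum -/
noncomputable def Sp (g : ZMod p) (N : ℕ) (t : ℝ) : Finset (ZMod p) :=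
  univ.filter fun x => t * N ≤ ‖Fs g N x‖

theorem mem_Sp {g : ZMod p} {N : ℕ} {t : ℝ} {x : ZMod p} :
    x ∈ Sp g N t ↔ t * N ≤ ‖Fs g N x‖ := by
  simp [Sp]

theorem norm_Fs_le (g : ZMod p) (N : ℕ) (x : ZMod p) : ‖Fs g N x‖ ≤ N := by
  unfold Fs
  refine (norm_sum_le _ _).trans ?_
  have : ∀ i ∈ range N, ‖ZMod.stdAddChar (N := p) (x * g ^ i)‖ = 1 :=
    fun i _ => AddChar.norm_apply _ _
  rw [sum_congr rfl this]
  simp

theorem Sp_anti {g : ZMod p} {N : ℕ} {t t' : ℝ} (h : t' ≤ t) : Sp g N t ⊆ Sp g N t' := by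
  intro x hx
  rw [mem_Sp] at hx ⊢
  refine le_trans ?_ hx
  gcongr

theorem Fs_mul_pow (g : ZMod p) (N j : ℕ) (x : ZMod p) :
    ‖Fs g N (g ^ j * x) - Fs g N x‖ ≤ 2 * j := by
  set f : ℕ → ℂ := fun i => ZMod.stdAddChar (N := p) (x * g ^ i) with hf
  have hf1 : ∀ i, ‖f i‖ = 1 := fun i => AddChar.norm_apply _ _
  have e0 : Fs g N (g ^ j * x) = ∑ i ∈ range N, f (j + i) := by
    unfold Fs
    refine sum_congr rfl fun i _ => ?_
    rw [hf]
    simp only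
    rw [pow_add]
    congr 1
    ring
  have e00 : Fs g N x = ∑ i ∈ range N, f i := rfl
  have e1 := Finset.sum_range_add f j N
  have e2 := Finset.sum_range_add f N j
  have e3 : ∑ i ∈ range N, f (j + i) - ∑ i ∈ range N, f i =
      ∑ i ∈ range j, f (N + i) - ∑ i ∈ range j, f i := by
    rw [add_comm j N] at e1
    rw [e1] at e2
    linear_combination e2
  rw [e0, e00, e3]
  refine (norm_sub_le _ _).trans ?_
  have h1 : ‖∑ i ∈ range j, f i‖ ≤ j := by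
    refine (norm_sum_le _ _).trans ?_
    simp [hf1]
  have h2 : ‖∑ i ∈ range j, f (N + i)‖ ≤ j := by
    refine (norm_sum_le _ _).trans ?_
    simp [hf1]
  linarith

theorem mul_pow_mem {g : ZMod p} {N j : ℕ} {t : ℝ} {x : ZMod p} (hx : x ∈ Sp g N t)
    (hj : (j : ℝ) ≤ t * N / 4) : g ^ j * x ∈ Sp g N (t / 2) := by
  rw [mem_Sp] at hx ⊢
  have h1 := Fs_mul_pow g N j x
  have h2 : ‖Fs g N x‖ ≤ ‖Fs g N (g ^ j * x)‖ + ‖Fs g N (g ^ j * x) - Fs g N x‖ := by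
    have := norm_sub_norm_le (Fs g N x) (Fs g N (g ^ j * x))
    rw [norm_sub_rev] at this
    linarith
  linarith

theorem neg_mem_Sp {g : ZMod p} {N : ℕ} {t : ℝ} {x : ZMod p} :
    -x ∈ Sp g N t ↔ x ∈ Sp g N t := by
  rw [mem_Sp, mem_Sp]
  have : Fs g N (-x) = (starRingEnd ℂ) (Fs g N x) := by
    unfold Fs
    rw [map_sum]
    refine sum_congr rfl fun i _ => ?_
    rw [neg_mul, AddChar.map_neg_eq_conj]
  rw [this, Complex.norm_conj]

/-- the differences in the spectrum -/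
theorem sum_diff {g : ZMod p} {N : ℕ} {t : ℝ} (ht : 0 ≤ t) (hN0 : 0 < N)
    {S : Finset (ZMod p)} (hS : S ⊆ Sp g N t) :
    t ^ 2 * N * (S.card : ℝ) ^ 2 ≤ ∑ x ∈ S, ∑ y ∈ S, ‖Fs g N (x - y)‖ := by
  classical
  have hN' : (0 : ℝ) < N := by exact_mod_cast hN0
  set c : ZMod p → ℂ := fun x => (starRingEnd ℂ) (Fs g N x) / ‖Fs g N x‖ with hc
  have hc1 : ∀ x, ‖c x‖ ≤ 1 := by
    intro x
    rw [hc]
    simp only
    rw [norm_div, Complex.norm_conj, Complex.norm_real, norm_norm]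
    exact div_self_le_one _
  have hc2 : ∀ x, c x * Fs g N x = ‖Fs g N x‖ := by
    intro x
    rw [hc]
    simp only
    rcases eq_or_ne (Fs g N x) 0 with h | h
    · rw [h]; simp
    · have h0 : (‖Fs g N x‖ : ℂ) ≠ 0 := by
        simpa using h
      rw [div_mul_eq_mul_div, mul_comm, Complex.mul_conj, Complex.normSq_eq_norm_sq, div_eq_iff h0]
      push_cast
      ring
  set G : ℕ → ℂ := fun i => ∑ x ∈ S, c x * ZMod.stdAddChar (N := p) (x * g ^ i) with hG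
  have h1 : ((∑ x ∈ S, ‖Fs g N x‖ : ℝ) : ℂ) = ∑ i ∈ range N, G i := by
    push_cast
    rw [sum_comm]
    refine sum_congr rfl fun x _ => ?_
    rw [← hc2, Fs, mul_sum]
  have h2 : t * N * S.card ≤ ∑ x ∈ S, ‖Fs g N x‖ := by
    have h3 : ∑ x ∈ S, t * N ≤ ∑ x ∈ S, ‖Fs g N x‖ := sum_le_sum fun x hx => mem_Sp.1 (hS hx)
    rw [sum_const, nsmul_eq_mul] at h3
    linarith
  have h3 : ∑ x ∈ S, ‖Fs g N x‖ ≤ ∑ i ∈ range N, ‖G i‖ := by
    have h4 : ‖((∑ x ∈ S, ‖Fs g N x‖ : ℝ) : ℂ)‖ ≤ ∑ i ∈ range N, ‖G i‖ := by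
      rw [h1]; exact norm_sum_le _ _
    rw [Complex.norm_real, Real.norm_of_nonneg (sum_nonneg fun _ _ => norm_nonneg _)] at h4
    exact h4
  have h4 : (∑ i ∈ range N, ‖G i‖) ^ 2 ≤ N * ∑ i ∈ range N, ‖G i‖ ^ 2 := by
    have := sq_sum_le_card_mul_sum_sq (s := range N) (f := fun i => ‖G i‖)
    rwa [card_range] at this
  have h5 : ((∑ i ∈ range N, ‖G i‖ ^ 2 : ℝ) : ℂ) =
      ∑ x ∈ S, ∑ y ∈ S, c x * (starRingEnd ℂ) (c y) * Fs g N (x - y) := by
    push_cast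
    have h6 : ∀ i ∈ range N, ((‖G i‖ : ℂ)) ^ 2 = ∑ x ∈ S, ∑ y ∈ S,
        c x * (starRingEnd ℂ) (c y) * ZMod.stdAddChar (N := p) ((x - y) * g ^ i) := by
      intro i _
      have h7 : ((‖G i‖ : ℂ)) ^ 2 = G i * (starRingEnd ℂ) (G i) := by
        rw [Complex.mul_conj, Complex.normSq_eq_norm_sq]
        push_cast
        rfl
      rw [h7, hG]
      simp only
      rw [map_sum, sum_mul_sum]
      refine sum_congr rfl fun x _ => sum_congr rfl fun y _ => ?_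
      rw [map_mul (starRingEnd ℂ), ← AddChar.map_neg_eq_conj]
      have h8 : (x - y) * g ^ i = x * g ^ i + -(y * g ^ i) := by ring
      rw [h8, AddChar.map_add_eq_mul]
      ring
    rw [sum_congr rfl h6, sum_comm]
    refine sum_congr rfl fun x _ => ?_
    rw [sum_comm]
    refine sum_congr rfl fun y _ => ?_
    rw [Fs, mul_sum]
  have h6 : ∑ i ∈ range N, ‖G i‖ ^ 2 ≤ ∑ x ∈ S, ∑ y ∈ S, ‖Fs g N (x - y)‖ := by
    have h7 : ‖((∑ i ∈ range N, ‖G i‖ ^ 2 : ℝ) : ℂ)‖ ≤ ∑ x ∈ S, ∑ y ∈ S, ‖Fs g N (x - y)‖ := by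
      rw [h5]
      refine (norm_sum_le _ _).trans (sum_le_sum fun x _ => ?_)
      refine (norm_sum_le _ _).trans (sum_le_sum fun y _ => ?_)
      rw [norm_mul, norm_mul, Complex.norm_conj]
      have e1 : ‖c x‖ * ‖c y‖ ≤ 1 := mul_le_one₀ (hc1 x) (norm_nonneg _) (hc1 y)
      have e2 := norm_nonneg (Fs g N (x - y))
      nlinarith
    rw [Complex.norm_real, Real.norm_of_nonneg (sum_nonneg fun _ _ => by positivity)] at h7
    exact h7
  have h7 : (t * N * S.card) ^ 2 ≤ N * ∑ x ∈ S, ∑ y ∈ S, ‖Fs g N (x - y)‖ := by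
    calc (t * N * S.card) ^ 2 ≤ (∑ i ∈ range N, ‖G i‖) ^ 2 := by
          have := h2.trans h3
          gcongr
      _ ≤ _ := h4
      _ ≤ _ := by gcongr
  have h8 : (N : ℝ) * (t ^ 2 * N * (S.card : ℝ) ^ 2) ≤ N * ∑ x ∈ S, ∑ y ∈ S, ‖Fs g N (x - y)‖ := by
    calc (N : ℝ) * (t ^ 2 * N * (S.card : ℝ) ^ 2) = (t * N * S.card) ^ 2 := by ring
      _ ≤ _ := h7
  exact le_of_mul_le_mul_left h8 hN'

/-- many differences are in the spectrum of a smaller level -/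
theorem many_diff {g : ZMod p} {N : ℕ} {t : ℝ} (ht : 0 ≤ t) (hN0 : 0 < N)
    {S : Finset (ZMod p)} (hS : S ⊆ Sp g N t) :
    t ^ 2 / 2 * (S.card : ℝ) ^ 2 ≤
      ((S ×ˢ S).filter fun w => w.1 - w.2 ∈ Sp g N (t ^ 2 / 2)).card := by
  classical
  have hN' : (0 : ℝ) < N := by exact_mod_cast hN0
  have h1 := sum_diff ht hN0 hS
  set T := (S ×ˢ S).filter fun w => w.1 - w.2 ∈ Sp g N (t ^ 2 / 2) with hT
  have h2 : ∑ x ∈ S, ∑ y ∈ S, ‖Fs g N (x - y)‖ ≤ T.card * N + t ^ 2 / 2 * N * (S.card : ℝ) ^ 2 := by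
    rw [← sum_product' S S fun x y => ‖Fs g N (x - y)‖]
    have h3 : ∀ w ∈ S ×ˢ S, ‖Fs g N (w.1 - w.2)‖ ≤
        (if w.1 - w.2 ∈ Sp g N (t ^ 2 / 2) then (N : ℝ) else 0) + t ^ 2 / 2 * N := by
      intro w _
      split_ifs with h
      · have := norm_Fs_le g N (w.1 - w.2)
        have : 0 ≤ t ^ 2 / 2 * N := by positivity
        linarith
      · rw [mem_Sp, not_le] at h
        linarith
    refine (sum_le_sum h3).trans ?_
    rw [sum_add_distrib, ← sum_filter, sum_const, sum_const, card_product, nsmul_eq_mul,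
      nsmul_eq_mul]
    push_cast
    apply le_of_eq
    ring
  have h3 : (t ^ 2 / 2 * (S.card : ℝ) ^ 2) * N ≤ T.card * N := by nlinarith
  exact le_of_mul_le_mul_right h3 hN'

/-- the additive energy of the spectrum -/
theorem energy_Sp {g : ZMod p} {N : ℕ} {t : ℝ} (ht : 0 ≤ t) (hN0 : 0 < N) :
    (t ^ 2 / 2 * ((Sp g N t).card : ℝ) ^ 2) ^ 2 ≤
      (Sp g N (t ^ 2 / 2)).card * ((Sp g N t).addEnergy (Sp g N t) : ℕ) := by
  classical
  set S := Sp g N t with hS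
  have h1 := many_diff ht hN0 (S := S) (by rw [hS])
  have h2 : ((S ×ˢ S).filter fun w => w.1 - w.2 ∈ Sp g N (t ^ 2 / 2)).card =
      ((S ×ˢ S).filter fun w => w.1 + w.2 ∈ Sp g N (t ^ 2 / 2)).card := by
    refine card_bij (fun w _ => (w.1, -w.2)) ?_ ?_ ?_
    · intro w hw
      rw [mem_filter, mem_product] at hw ⊢
      refine ⟨⟨hw.1.1, neg_mem_Sp.2 hw.1.2⟩, ?_⟩
      simpa [sub_eq_add_neg] using hw.2
    · intro w _ w' _ h
      simp only [Prod.mk.injEq, neg_inj] at h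
      exact Prod.ext h.1 h.2
    · intro w hw
      rw [mem_filter, mem_product] at hw
      refine ⟨(w.1, -w.2), ?_, by simp⟩
      rw [mem_filter, mem_product]
      refine ⟨⟨hw.1.1, neg_mem_Sp.2 hw.1.2⟩, ?_⟩
      simpa [sub_eq_add_neg] using hw.2
  rw [h2] at h1
  have h3 := card_sq_le_card_mul_addEnergy S S (Sp g N (t ^ 2 / 2))
  have h3' : (((S ×ˢ S).filter fun w => w.1 + w.2 ∈ Sp g N (t ^ 2 / 2)).card : ℝ) ^ 2 ≤
      (Sp g N (t ^ 2 / 2)).card * (S.addEnergy S : ℕ) := by exact_mod_cast h3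
  refine le_trans ?_ h3'
  gcongr

end Pool.Agent.H82.BGK
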